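import Pool.Agent.U398.MV.Stm8

set_option autoImplicit false

/-!
# Package M24 of project MV8: second and fourth moments of the increments of the fluctuation
-/

namespace Pool.Agent.U765.MV8

open MeasureTheory Filter Topology Set
open Pool.Agent.U398.MV
open scoped Nat

noncomputable section

/-- measurable and bounded on an interval -/
structure Bd (a b : ℝ) (f : ℝ → ℝ) : Prop where
  m : Measurable f
  b : ∃ C : ℝ, 0 ≤ C ∧ ∀ t ∈ Icc a b, |f t| ≤ C

theorem Bd.add {a b : ℝ} {f g : ℝ → ℝ} (hf : Bd a b f) (hg : Bd a b g) : Bd a b (fun t => f t + g t) := by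
  obtain ⟨C, hC0, hC⟩ := hf.b
  obtain ⟨D, hD0, hD⟩ := hg.b
  refine ⟨hf.m.add hg.m, C + D, by positivity, fun t ht => ?_⟩
  exact (abs_add_le _ _).trans (add_le_add (hC t ht) (hD t ht))

theorem Bd.sub {a b : ℝ} {f g : ℝ → ℝ} (hf : Bd a b f) (hg : Bd a b g) : Bd a b (fun t => f t - g t) := by
  obtain ⟨C, hC0, hC⟩ := hf.b
  obtain ⟨D, hD0, hD⟩ := hg.b
  refine ⟨hf.m.sub hg.m, C + D, by positivity, fun t ht => ?_⟩
  exact (abs_sub _ _).trans (add_le_add (hC t ht) (hD t ht))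

theorem Bd.pow {a b : ℝ} {f : ℝ → ℝ} (hf : Bd a b f) (k : ℕ) : Bd a b (fun t => f t ^ k) := by
  obtain ⟨C, hC0, hC⟩ := hf.b
  refine ⟨hf.m.pow_const k, C ^ k, by positivity, fun t ht => ?_⟩
  rw [abs_pow]
  exact pow_le_pow_left₀ (abs_nonneg _) (hC t ht) k

theorem Bd.ii {a b : ℝ} {f : ℝ → ℝ} (hf : Bd a b f) (hab : a ≤ b) : IntervalIntegrable f volume a b := by
  obtain ⟨C, hC0, hC⟩ := hf.b
  rw [intervalIntegrable_iff_integrableOn_Icc_of_le hab]
  refine Measure.integrableOn_of_bounded (M := C) ?_ hf.m.aestronglyMeasurable ?_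
  · rw [Real.volume_Icc]; exact ENNReal.ofReal_ne_top
  · refine (ae_restrict_iff' measurableSet_Icc).2 (Filter.Eventually.of_forall fun t ht => ?_)
    rw [Real.norm_eq_abs]; exact hC t ht

theorem Mf_cont : Continuous Mf := by
  have h : Mf = fun t : ℝ => (t / (2 * Real.pi)) * Real.log (t / (2 * Real.pi)) - t / (2 * Real.pi) := by
    funext t; rfl
  rw [h]
  have h1 : Continuous fun t : ℝ => t / (2 * Real.pi) := continuous_id.div_const _
  exact (Real.continuous_mul_log.comp h1).sub h1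

theorem sg_Bd (N : ℝ → ℕ) (hN : Monotone N) (a b x : ℝ) : Bd a b (fun t => sg N (t + x)) := by
  have h1 : Monotone fun t : ℝ => ((N (t + x) : ℕ) : ℝ) := fun s t hst =>
    Nat.cast_le.2 (hN (by linarith))
  have h2 : Continuous fun t : ℝ => Mf (t + x) := Mf_cont.comp (continuous_id.add continuous_const)
  have h3 : Bd a b (fun t : ℝ => ((N (t + x) : ℕ) : ℝ)) := by
    refine ⟨h1.measurable, (N (b + x) : ℝ), by positivity, fun t ht => ?_⟩
    rw [abs_of_nonneg (by positivity)]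
    exact h1 ht.2
  have h4 : Bd a b (fun t : ℝ => Mf (t + x)) := by
    obtain ⟨C, hC⟩ := (isCompact_Icc (a := a) (b := b)).exists_bound_of_continuousOn h2.continuousOn
    refine ⟨h2.measurable, max C 0, le_max_right _ _, fun t ht => ?_⟩
    have := hC t ht
    rw [Real.norm_eq_abs] at this
    exact this.trans (le_max_left _ _)
  exact h3.sub h4

theorem Uu_Bd (N : ℝ → ℕ) (hN : Monotone N) (a b : ℝ) (p : ℝ × ℝ) : Bd a b (fun t => Uu N p t) :=
  (sg_Bd N hN a b p.1).sub (sg_Bd N hN a b p.2)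

theorem gM2 (v : ℝ) : gM 2 v = v := by
  have h : Even 2 := by decide
  unfold gM
  rw [if_pos h]
  norm_num [Nat.doubleFactorial]

theorem gM4 (v : ℝ) : gM 4 v = 3 * v ^ 2 := by
  have h : Even 4 := by decide
  unfold gM
  rw [if_pos h]
  norm_num [Nat.doubleFactorial]

theorem Gf2 (N : ℝ → ℕ) (p : ℝ × ℝ) (t : ℝ) :
    Gf N ![1 / 2, -(1 / 2)] ![p.1, p.2] t = Uu N p t / 2 := by
  unfold Gf Uu
  simp [Fin.sum_univ_two]
  ring

theorem Gf4 (N : ℝ → ℕ) (s : ℝ) (p q : ℝ × ℝ) (t : ℝ) :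
    Gf N ![1 / 4, -(1 / 4), s / 4, -(s / 4)] ![p.1, p.2, q.1, q.2] t = (Uu N p t + s * Uu N q t) / 4 := by
  unfold Gf Uu
  simp [Fin.sum_univ_four]
  ring

theorem VL_eq {m : ℕ} (L : ℝ) (c x : Fin m → ℝ) :
    VL L c x = -(1 / 2) * ∑ i, ∑ j, c i * c j * Vv L (x i, x j) := by
  unfold VL Vv
  rw [Finset.mul_sum, Finset.mul_sum]
  refine Finset.sum_congr rfl fun i _ => ?_
  rw [Finset.mul_sum, Finset.mul_sum]
  refine Finset.sum_congr rfl fun j _ => ?_
  have : Real.pi ≠ 0 := Real.pi_ne_zero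
  field_simp

theorem Vv_self (L x : ℝ) : Vv L (x, x) = 0 := by
  unfold Vv; simp

theorem Vv_comm (L x y : ℝ) : Vv L (x, y) = Vv L (y, x) := by
  unfold Vv; simp [abs_sub_comm]

theorem VL2 (L : ℝ) (p : ℝ × ℝ) : VL L ![1 / 2, -(1 / 2)] ![p.1, p.2] = Vv L p / 4 := by
  rw [VL_eq]
  simp only [Fin.sum_univ_two, Matrix.cons_val_zero, Matrix.cons_val_one]
  rw [Vv_self, Vv_self, Vv_comm L p.2 p.1]
  ring

theorem VL4 (L s : ℝ) (hs : s ^ 2 = 1) (p q : ℝ × ℝ) :
    VL L ![1 / 4, -(1 / 4), s / 4, -(s / 4)] ![p.1, p.2, q.1, q.2] =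
      (Vv L p + Vv L q + 2 * s * Cv L p q) / 16 := by
  rw [VL_eq]
  simp only [Fin.sum_univ_four, Matrix.cons_val_zero, Matrix.cons_val_one, Matrix.cons_val]
  rw [Vv_self, Vv_self, Vv_self, Vv_self, Vv_comm L p.2 p.1, Vv_comm L q.1 p.1, Vv_comm L q.1 p.2,
    Vv_comm L q.2 p.1, Vv_comm L q.2 p.2, Vv_comm L q.2 q.1]
  unfold Cv
  have e1 : Vv L p = Vv L (p.1, p.2) := rfl
  have e2 : Vv L q = Vv L (q.1, q.2) := rfl
  rw [e1, e2]
  linear_combination (1 / 16 * Vv L (q.1, q.2)) * hs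

theorem alg (U W : ℝ) : U ^ 2 * W ^ 2 =
    64 / 3 * ((U + W) / 4) ^ 4 + 64 / 3 * ((U - W) / 4) ^ 4 - 8 / 3 * (U / 2) ^ 4 - 8 / 3 * (W / 2) ^ 4 := by
  ring

theorem t_M24 : Pool.Agent.U398.MV.S_M24 := by
  intro N hN hM B hB
  obtain ⟨C2, T2, hC2, hT2, H2⟩ := hM.2 2 (2 * Real.pi * B)
  obtain ⟨C4, T4, hC4, hT4, H4⟩ := hM.2 4 (2 * Real.pi * B)
  have hpi : 0 < Real.pi := Real.pi_pos
  refine ⟨4 * C2 + 48 * C4, max T2 T4, by positivity, le_max_of_le_left hT2, ?_⟩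
  intro T hT Λ hΛ hΛB p q hp hq
  have hTT2 : T2 ≤ T := (le_max_left _ _).trans hT
  have hTT4 : T4 ≤ T := (le_max_right _ _).trans hT
  have hT10 : 10 ≤ T := hT2.trans hTT2
  have hL : 0 < Real.log T := Real.log_pos (by linarith)
  have hab : T ≤ 2 * T := by linarith
  set L := Real.log T with hLdef
  have hLam : 0 ≤ Real.log Λ := Real.log_nonneg hΛ
  -- the range of a shift
  have hsh : ∀ x : ℝ, 0 ≤ x → x ≤ ell T Λ → 0 ≤ x ∧ x ≤ 2 * Real.pi * B ∧ x * L ≤ 2 * Real.pi * Λ := by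
    intro x hx0 hx
    have h1 : ell T Λ = 2 * Real.pi * Λ / L := rfl
    rw [h1] at hx
    have h2 : x * L ≤ 2 * Real.pi * Λ := by
      rwa [le_div_iff₀ hL] at hx
    refine ⟨hx0, ?_, h2⟩
    refine hx.trans ?_
    rw [div_le_iff₀ hL]
    nlinarith
  have hp1 := hsh p.1 hp.1.1 hp.1.2
  have hp2 := hsh p.2 hp.2.1 hp.2.2
  have hq1 := hsh q.1 hq.1.1 hq.1.2
  have hq2 := hsh q.2 hq.2.1 hq.2.2
  have two : ∀ (k : ℕ) (C T0 : ℝ), T0 ≤ T → (∀ T : ℝ, T0 ≤ T → ∀ (m : ℕ) (c x : Fin m → ℝ) (r : ℝ),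
      (∑ i, |c i|) ≤ 1 → (∑ i, c i) = 0 → 1 ≤ r →
      (∀ i, 0 ≤ x i ∧ x i ≤ 2 * Real.pi * B ∧ x i * Real.log T ≤ 2 * Real.pi * r) →
      |1 / T * (∫ t in T..(2 * T), Gf N c x t ^ k) - gM k (VL (Real.log T) c x)| ≤
      C * (1 + Real.log r) ^ (((k : ℝ) - 1) / 2)) → ∀ w : ℝ × ℝ,
      (0 ≤ w.1 ∧ w.1 ≤ 2 * Real.pi * B ∧ w.1 * L ≤ 2 * Real.pi * Λ) →
      (0 ≤ w.2 ∧ w.2 ≤ 2 * Real.pi * B ∧ w.2 * L ≤ 2 * Real.pi * Λ) →
      |1 / T * (∫ t in T..(2 * T), (Uu N w t / 2) ^ k) - gM k (Vv L w / 4)| ≤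
        C * (1 + Real.log Λ) ^ (((k : ℝ) - 1) / 2) := by
    intro k C T0 hT0 H w h1 h2
    have := H T hT0 2 ![1 / 2, -(1 / 2)] ![w.1, w.2] Λ
      (by simp only [Fin.sum_univ_two, Matrix.cons_val_zero, Matrix.cons_val_one]
          rw [abs_neg, abs_of_pos (by norm_num : (0 : ℝ) < 1 / 2)]; norm_num)
      (by simp [Fin.sum_univ_two]) hΛ
      (by
        intro i
        fin_cases i
        · exact h1
        · exact h2)
    simp only [Gf2, VL2] at this
    exact this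
  have four : ∀ s : ℝ, |s| = 1 →
      |1 / T * (∫ t in T..(2 * T), ((Uu N p t + s * Uu N q t) / 4) ^ 4) -
        gM 4 ((Vv L p + Vv L q + 2 * s * Cv L p q) / 16)| ≤
        C4 * (1 + Real.log Λ) ^ ((((4 : ℕ) : ℝ) - 1) / 2) := by
    intro s hs
    have hs2 : s ^ 2 = 1 := by rw [← sq_abs, hs]; norm_num
    have a4 : |s / 4| = 1 / 4 := by rw [abs_div, hs]; norm_num
    have := H4 T hTT4 4 ![1 / 4, -(1 / 4), s / 4, -(s / 4)] ![p.1, p.2, q.1, q.2] Λ
      (by simp only [Fin.sum_univ_four, Matrix.cons_val_zero, Matrix.cons_val_one, Matrix.cons_val]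
          rw [abs_neg, abs_neg, a4, abs_of_pos (by norm_num : (0 : ℝ) < 1 / 4)]; norm_num)
      (by simp [Fin.sum_univ_four]) hΛ
      (by
        intro i
        fin_cases i
        · exact hp1
        · exact hp2
        · exact hq1
        · exact hq2)
    simp only [Gf4, VL4 _ s hs2] at this
    exact this
  have hU := Uu_Bd N hN T (2 * T) p
  have hW := Uu_Bd N hN T (2 * T) q
  constructor
  · have h := two 2 C2 T2 hTT2 H2 p hp1 hp2
    rw [gM2] at h
    have e : (∫ t in T..(2 * T), Uu N p t ^ 2) = 4 * ∫ t in T..(2 * T), (Uu N p t / 2) ^ 2 := by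
      rw [← intervalIntegral.integral_const_mul]
      refine intervalIntegral.integral_congr fun t _ => ?_
      ring
    have e2 : (((2 : ℕ) : ℝ) - 1) / 2 = 1 / 2 := by norm_num
    rw [e2] at h
    rw [e]
    have e3 : 1 / T * (4 * ∫ t in T..(2 * T), (Uu N p t / 2) ^ 2) - Vv L p =
        4 * (1 / T * (∫ t in T..(2 * T), (Uu N p t / 2) ^ 2) - Vv L p / 4) := by ring
    rw [e3, abs_mul, abs_of_pos (by norm_num : (0 : ℝ) < 4)]
    have h5 : 0 ≤ (1 + Real.log Λ) ^ (1 / 2 : ℝ) := by positivity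
    nlinarith
  · have hp4 := two 4 C4 T4 hTT4 H4 p hp1 hp2
    have hq4 := two 4 C4 T4 hTT4 H4 q hq1 hq2
    have ha := four 1 (by norm_num)
    have hb := four (-1) (by norm_num)
    have e2 : (((4 : ℕ) : ℝ) - 1) / 2 = 3 / 2 := by norm_num
    rw [e2, gM4] at hp4 hq4 ha hb
    have i1 : IntervalIntegrable (fun t => ((Uu N p t + Uu N q t) / 4) ^ 4) volume T (2 * T) := by
      have := ((hU.add hW).pow 4).ii hab
      have e : (fun t => ((Uu N p t + Uu N q t) / 4) ^ 4) = fun t => (1 / 256) * (Uu N p t + Uu N q t) ^ 4 := by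
        funext t; ring
      rw [e]; exact this.const_mul _
    have i2 : IntervalIntegrable (fun t => ((Uu N p t - Uu N q t) / 4) ^ 4) volume T (2 * T) := by
      have := ((hU.sub hW).pow 4).ii hab
      have e : (fun t => ((Uu N p t - Uu N q t) / 4) ^ 4) = fun t => (1 / 256) * (Uu N p t - Uu N q t) ^ 4 := by
        funext t; ring
      rw [e]; exact this.const_mul _
    have i3 : IntervalIntegrable (fun t => (Uu N p t / 2) ^ 4) volume T (2 * T) := by
      have := (hU.pow 4).ii hab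
      have e : (fun t => (Uu N p t / 2) ^ 4) = fun t => (1 / 16) * (Uu N p t) ^ 4 := by
        funext t; ring
      rw [e]; exact this.const_mul _
    have i4 : IntervalIntegrable (fun t => (Uu N q t / 2) ^ 4) volume T (2 * T) := by
      have := (hW.pow 4).ii hab
      have e : (fun t => (Uu N q t / 2) ^ 4) = fun t => (1 / 16) * (Uu N q t) ^ 4 := by
        funext t; ring
      rw [e]; exact this.const_mul _
    have e : (∫ t in T..(2 * T), Uu N p t ^ 2 * Uu N q t ^ 2) =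
        64 / 3 * (∫ t in T..(2 * T), ((Uu N p t + Uu N q t) / 4) ^ 4) +
        64 / 3 * (∫ t in T..(2 * T), ((Uu N p t - Uu N q t) / 4) ^ 4) -
        8 / 3 * (∫ t in T..(2 * T), (Uu N p t / 2) ^ 4) - 8 / 3 * (∫ t in T..(2 * T), (Uu N q t / 2) ^ 4) := by
      rw [← intervalIntegral.integral_const_mul, ← intervalIntegral.integral_const_mul,
        ← intervalIntegral.integral_const_mul, ← intervalIntegral.integral_const_mul,
        ← intervalIntegral.integral_add (i1.const_mul _) (i2.const_mul _),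
        ← intervalIntegral.integral_sub ((i1.const_mul _).add (i2.const_mul _)) (i3.const_mul _),
        ← intervalIntegral.integral_sub (((i1.const_mul _).add (i2.const_mul _)).sub (i3.const_mul _)) (i4.const_mul _)]
      refine intervalIntegral.integral_congr fun t _ => ?_
      exact alg _ _
    have ea : (∫ t in T..(2 * T), ((Uu N p t + 1 * Uu N q t) / 4) ^ 4) =
        ∫ t in T..(2 * T), ((Uu N p t + Uu N q t) / 4) ^ 4 := by
      refine intervalIntegral.integral_congr fun t _ => ?_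
      rw [one_mul]
    have eb : (∫ t in T..(2 * T), ((Uu N p t + (-1) * Uu N q t) / 4) ^ 4) =
        ∫ t in T..(2 * T), ((Uu N p t - Uu N q t) / 4) ^ 4 := by
      refine intervalIntegral.integral_congr fun t _ => ?_
      rw [neg_one_mul, ← sub_eq_add_neg]
    rw [ea] at ha
    rw [eb] at hb
    rw [e]
    set I1 := ∫ t in T..(2 * T), ((Uu N p t + Uu N q t) / 4) ^ 4
    set I2 := ∫ t in T..(2 * T), ((Uu N p t - Uu N q t) / 4) ^ 4
    set I3 := ∫ t in T..(2 * T), (Uu N p t / 2) ^ 4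
    set I4 := ∫ t in T..(2 * T), (Uu N q t / 2) ^ 4
    set Y := (1 + Real.log Λ) ^ (3 / 2 : ℝ) with hY
    have hY0 : 0 ≤ Y := by positivity
    have key : 1 / T * (64 / 3 * I1 + 64 / 3 * I2 - 8 / 3 * I3 - 8 / 3 * I4) -
        (Vv L p * Vv L q + 2 * Cv L p q ^ 2) =
        64 / 3 * (1 / T * I1 - 3 * ((Vv L p + Vv L q + 2 * 1 * Cv L p q) / 16) ^ 2) +
        64 / 3 * (1 / T * I2 - 3 * ((Vv L p + Vv L q + 2 * (-1) * Cv L p q) / 16) ^ 2) -
        8 / 3 * (1 / T * I3 - 3 * (Vv L p / 4) ^ 2) - 8 / 3 * (1 / T * I4 - 3 * (Vv L q / 4) ^ 2) := by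
      ring
    rw [key]
    rw [abs_le] at ha hb hp4 hq4 ⊢
    have hCY : 0 ≤ C4 * Y := by positivity
    have hCY2 : 0 ≤ C2 * Y := by positivity
    constructor
    · have : (4 * C2 + 48 * C4) * Y = 4 * (C2 * Y) + 48 * (C4 * Y) := by ring
      rw [this]; linarith [ha.1, hb.1, hp4.2, hq4.2]
    · have : (4 * C2 + 48 * C4) * Y = 4 * (C2 * Y) + 48 * (C4 * Y) := by ring
      rw [this]; linarith [ha.2, hb.2, hp4.1, hq4.1]

end

end Pool.Agent.U765.MV8
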